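import Pool.Agent.TH494.LD.Low1

/-! LOW: the lower bound for the n-th derivative. -/

set_option autoImplicit false

open Complex Filter Topology Set Metric

namespace Pool.Agent.TH494.LD

set_option maxHeartbeats 2000000 in
theorem low : Pool.Agent.TH839.LD.S_LOW := by
  intro A η hA hη
  obtain ⟨R, hR⟩ : ∃ R : ℝ, R = A + 1 := ⟨_, rfl⟩
  have hRA : A < R := by linarith
  have hR0 : 0 < R := by linarith
  obtain ⟨ψ, hψ⟩ : ∃ ψ : ℝ, ψ = A + A * Real.log (R / A) := ⟨_, rfl⟩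
  have hψR : ψ < R := by
    have h1 : Real.log (R / A) < R / A - 1 := by
      apply Real.log_lt_sub_one_of_pos (by positivity)
      rw [Ne, div_eq_one_iff_eq hA.ne']
      exact hRA.ne'
    have h2 : A * Real.log (R / A) < A * (R / A - 1) := mul_lt_mul_of_pos_left h1 hA
    have h3 : A * (R / A - 1) = R - A := by field_simp
    linarith
  obtain ⟨m, hm, hmR⟩ : ∃ m : ℕ, 0 < m ∧ R ≤ m / 2 := by
    refine ⟨⌈2 * R⌉₊, Nat.ceil_pos.2 (by linarith), ?_⟩
    have := Nat.le_ceil (2 * R)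
    linarith
  have h3m : (1 : ℝ) ≤ 3 ^ m := one_le_pow₀ (by norm_num)
  obtain ⟨κ, hκ0, hκ1, hκ2⟩ : ∃ κ : ℝ, 0 < κ ∧ 8 * κ ≤ R - ψ ∧ 6 * κ * 3 ^ m ≤ η := by
    refine ⟨min ((R - ψ) / 8) (η / (6 * 3 ^ m)), ?_, ?_, ?_⟩
    · exact lt_min (by linarith) (by positivity)
    · have := min_le_left ((R - ψ) / 8) (η / (6 * 3 ^ m))
      linarith
    · have := min_le_right ((R - ψ) / 8) (η / (6 * 3 ^ m))
      rw [le_div_iff₀ (by positivity)] at this
      linarith
  refine ⟨κ, max 1 (max (1 / κ) (2 * Real.exp 1 * A / κ ^ 2)), hκ0, ?_⟩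
  intro ℓ P n f hℓ hP hn hf hne hup hlo h hh
  have hℓ1 : 1 ≤ ℓ := le_trans (le_max_left _ _) hℓ
  have hℓ0 : 0 < ℓ := by linarith
  have hℓκ : 1 ≤ κ * ℓ := by
    have : 1 / κ ≤ ℓ := le_trans (le_trans (le_max_left _ _) (le_max_right _ _)) hℓ
    rw [div_le_iff₀ hκ0] at this
    linarith
  have hℓ2 : Real.exp 1 * (A * ℓ) ≤ Real.exp (κ * ℓ) := by
    have h1 : 2 * Real.exp 1 * A / κ ^ 2 ≤ ℓ :=
      le_trans (le_trans (le_max_right _ _) (le_max_right _ _)) hℓ
    rw [div_le_iff₀ (by positivity)] at h1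
    have h2 := Real.quadratic_le_exp_of_nonneg (x := κ * ℓ) (by positivity)
    have h3 : Real.exp 1 * (A * ℓ) ≤ (κ * ℓ) ^ 2 / 2 := by nlinarith
    nlinarith
  obtain ⟨a, ha⟩ : ∃ a : ℂ, a = 4 + h * I := ⟨_, rfl⟩
  have hare : a.re = 4 := by rw [ha]; simp
  have hanorm : ‖a‖ ≤ 5 := by
    rw [ha]
    refine (norm_add_le _ _).trans ?_
    have h1 : ‖(4 : ℂ)‖ = 4 := by simp
    have h2 : ‖(h : ℂ) * I‖ = |h| := by simp
    rw [h1, h2]
    linarith
  rw [← ha]
  rcases Nat.eq_zero_or_pos n with hn0 | hn1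
  · subst hn0
    rw [iteratedDeriv_zero, pow_zero, mul_one]
    refine le_trans ?_ (hlo a (by rw [hare]; norm_num) (by linarith))
    rw [hare]
    refine mul_le_mul_of_nonneg_left (Real.exp_le_exp.2 ?_) hP.le
    nlinarith
  have hnR : (0 : ℝ) < n := by exact_mod_cast hn1
  obtain ⟨ρ, hρ⟩ : ∃ ρ : ℝ, ρ = n / ℓ := ⟨_, rfl⟩
  have hρ0 : 0 < ρ := by rw [hρ]; positivity
  have hρA : ρ ≤ A := by rw [hρ, div_le_iff₀ hℓ0]; exact hn
  have hρℓ : ℓ * ρ = n := by rw [hρ]; field_simp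
  have hg : Differentiable ℂ (iteratedDeriv n f) :=
    (hf.contDiff (n := ((n + 1 : ℕ) : WithTop ℕ∞))).differentiable_iteratedDeriv n
      (by exact_mod_cast Nat.lt_succ_self n)
  -- the bound for `f` on circles of radius `ρ`
  have hcirc : ∀ u : ℂ, 3 ≤ u.re → ‖u‖ ≤ A + 10 → ∀ z ∈ sphere u ρ,
      ‖f z‖ ≤ P * Real.exp (ℓ * u.re + n + κ * ℓ) := by
    intro u hu1 hu2 z hz
    rw [mem_sphere_iff_norm] at hz
    have h1 : ‖z‖ ≤ 2 * A + 12 := by
      calc ‖z‖ = ‖(z - u) + u‖ := by rw [sub_add_cancel]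
        _ ≤ ‖z - u‖ + ‖u‖ := norm_add_le _ _
        _ ≤ 2 * A + 12 := by linarith
    refine (hup z h1).trans (mul_le_mul_of_nonneg_left (Real.exp_le_exp.2 ?_) hP.le)
    have h2 : |z.re| ≤ u.re + ρ := by
      have h3 := Complex.abs_re_le_norm (z - u)
      rw [hz, Complex.sub_re] at h3
      rw [abs_le] at h3 ⊢
      constructor <;> linarith
    have h3 : max |z.re| 3 ≤ u.re + ρ := max_le h2 (by linarith)
    have h4 : ℓ * max |z.re| 3 ≤ ℓ * (u.re + ρ) := mul_le_mul_of_nonneg_left h3 hℓ0.le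
    have h5 : ℓ * (u.re + ρ) = ℓ * u.re + n := by rw [mul_add, hρℓ]
    linarith
  have hcau : ∀ u : ℂ, 3 ≤ u.re → ‖u‖ ≤ A + 10 → ∀ k : ℕ,
      ‖iteratedDeriv k f u‖ ≤ k.factorial * (P * Real.exp (ℓ * u.re + n + κ * ℓ)) / ρ ^ k := by
    intro u hu1 hu2 k
    exact norm_iteratedDeriv_le_of_forall_mem_sphere_norm_le k hρ0 hf.diffContOnCl
      (hcirc u hu1 hu2)
  -- upper bound for the derivative
  have hgup : ∀ u : ℂ, 3 ≤ u.re → ‖u‖ ≤ A + 10 →
      ‖iteratedDeriv n f u‖ ≤ P * ℓ ^ n * Real.exp (ℓ * u.re + 2 * κ * ℓ) := by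
    intro u hu1 hu2
    refine (hcau u hu1 hu2 n).trans ?_
    rw [div_le_iff₀ (by positivity)]
    have h1 := fact_bd n hn1
    have h2 : Real.exp 1 * (n : ℝ) ≤ Real.exp (κ * ℓ) :=
      (mul_le_mul_of_nonneg_left hn (Real.exp_pos _).le).trans hℓ2
    have h3 : ℓ ^ n * ρ ^ n = (n : ℝ) ^ n := by rw [← mul_pow, hρℓ]
    calc (n.factorial : ℝ) * (P * Real.exp (ℓ * u.re + n + κ * ℓ))
        = P * Real.exp (ℓ * u.re + κ * ℓ) * ((n.factorial : ℝ) * Real.exp n) := by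
          rw [show ℓ * u.re + n + κ * ℓ = (ℓ * u.re + κ * ℓ) + n by ring, Real.exp_add]
          ring
      _ ≤ P * Real.exp (ℓ * u.re + κ * ℓ) * ((n : ℝ) ^ n * (Real.exp 1 * n)) :=
          mul_le_mul_of_nonneg_left h1 (by positivity)
      _ ≤ P * Real.exp (ℓ * u.re + κ * ℓ) * ((n : ℝ) ^ n * Real.exp (κ * ℓ)) := by
          gcongr
      _ = P * ℓ ^ n * Real.exp (ℓ * u.re + 2 * κ * ℓ) * ρ ^ n := by
          rw [← h3, show ℓ * u.re + 2 * κ * ℓ = (ℓ * u.re + κ * ℓ) + κ * ℓ by ring,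
            Real.exp_add (ℓ * u.re + κ * ℓ)]
          ring
  -- a point where the derivative is large
  obtain ⟨t, ht, hbig⟩ : ∃ t ∈ Icc (0 : ℝ) R, P * ℓ ^ n * Real.exp (ℓ * (a + (t : ℝ)).re -
      3 * κ * ℓ) ≤ ‖iteratedDeriv n f (a + (t : ℝ))‖ := by
    by_contra hcon
    push Not at hcon
    have hT := taylor_bd n f hf a (P * Real.exp (4 * ℓ - 3 * κ * ℓ)) ℓ R (by positivity) hℓ0 (by
      intro t ht
      have h1 := (hcon t ht).le
      rw [Complex.add_re, hare, Complex.ofReal_re] at h1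
      refine h1.trans (le_of_eq ?_)
      rw [show ℓ * (4 + t) - 3 * κ * ℓ = (4 * ℓ - 3 * κ * ℓ) + ℓ * t by ring, Real.exp_add]
      ring) R ⟨hR0.le, le_rfl⟩
    have hlow := hlo (a + (R : ℝ)) (by rw [Complex.add_re, hare, Complex.ofReal_re]; linarith)
      ((norm_add_le _ _).trans (by
        rw [Complex.norm_real, Real.norm_eq_abs, abs_of_pos hR0]
        linarith))
    rw [Complex.add_re, hare, Complex.ofReal_re] at hlow
    have hRρ : 1 ≤ R / ρ := by rw [one_le_div hρ0]; linarith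
    have hlog : ρ + ρ * Real.log (R / ρ) ≤ ψ := by
      have h1 : Real.log (R / ρ) = Real.log (R / A) + Real.log (A / ρ) := by
        rw [Real.log_div hR0.ne' hρ0.ne', Real.log_div hR0.ne' hA.ne',
          Real.log_div hA.ne' hρ0.ne']
        ring
      have h2 : Real.log (A / ρ) ≤ A / ρ - 1 := Real.log_le_sub_one_of_pos (by positivity)
      have h3 : 0 ≤ Real.log (R / A) := Real.log_nonneg (by rw [one_le_div hA]; linarith)
      have h4 : ρ * Real.log (A / ρ) ≤ A - ρ := by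
        have := mul_le_mul_of_nonneg_left h2 hρ0.le
        have e : ρ * (A / ρ - 1) = A - ρ := by field_simp
        linarith
      have h5 : ρ * Real.log (R / A) ≤ A * Real.log (R / A) := mul_le_mul_of_nonneg_right hρA h3
      rw [h1, hψ]
      linarith
    have hpow : (R / ρ) ^ n = Real.exp (n * Real.log (R / ρ)) := by
      rw [mul_comm, Real.exp_mul, Real.exp_log (by positivity), Real.rpow_natCast]
    have hterm : ∀ k ∈ Finset.range n, ‖iteratedDeriv k f a‖ * R ^ k / (k.factorial : ℝ) ≤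
        P * Real.exp (4 * ℓ + κ * ℓ + ψ * ℓ) := by
      intro k hk
      have hk' : k ≤ n := (Finset.mem_range.1 hk).le
      have h1 := hcau a (by rw [hare]; norm_num) (by linarith) k
      rw [hare] at h1
      have hkf : (0 : ℝ) < k.factorial := by exact_mod_cast k.factorial_pos
      rw [div_le_iff₀ hkf]
      calc ‖iteratedDeriv k f a‖ * R ^ k
          ≤ k.factorial * (P * Real.exp (ℓ * 4 + n + κ * ℓ)) / ρ ^ k * R ^ k :=
            mul_le_mul_of_nonneg_right h1 (by positivity)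
        _ = (P * Real.exp (ℓ * 4 + n + κ * ℓ)) * (R / ρ) ^ k * k.factorial := by
            rw [div_pow]; field_simp
        _ ≤ (P * Real.exp (ℓ * 4 + n + κ * ℓ)) * (R / ρ) ^ n * k.factorial := by
            gcongr
        _ ≤ P * Real.exp (4 * ℓ + κ * ℓ + ψ * ℓ) * k.factorial := by
            refine mul_le_mul_of_nonneg_right ?_ hkf.le
            rw [hpow, mul_assoc, ← Real.exp_add]
            refine mul_le_mul_of_nonneg_left (Real.exp_le_exp.2 ?_) hP.le
            have h2 : (n : ℝ) + n * Real.log (R / ρ) = ℓ * (ρ + ρ * Real.log (R / ρ)) := by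
              rw [← hρℓ]; ring
            have h3 : ℓ * (ρ + ρ * Real.log (R / ρ)) ≤ ℓ * ψ :=
              mul_le_mul_of_nonneg_left hlog hℓ0.le
            linarith
    have hsum : ∑ k ∈ Finset.range n, ‖iteratedDeriv k f a‖ * R ^ k / (k.factorial : ℝ) ≤
        n * (P * Real.exp (4 * ℓ + κ * ℓ + ψ * ℓ)) := by
      have := Finset.sum_le_card_nsmul _ _ _ hterm
      rwa [Finset.card_range, nsmul_eq_mul] at this
    have hnexp : (n : ℝ) ≤ Real.exp (κ * ℓ) := by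
      refine hn.trans (le_trans ?_ hℓ2)
      have : 1 ≤ Real.exp 1 := Real.one_le_exp (by norm_num)
      have : 0 < A * ℓ := by positivity
      nlinarith
    have h1 : P * Real.exp (ℓ * (4 + R) - κ * ℓ) ≤
        P * Real.exp (ℓ * (4 + R) - 3 * κ * ℓ) + P * Real.exp (ℓ * (4 + R) - 6 * κ * ℓ) := by
      refine hlow.trans (hT.trans (add_le_add (le_of_eq ?_) (hsum.trans ?_)))
      · rw [mul_assoc, ← Real.exp_add]
        congr 2
        ring
      · calc (n : ℝ) * (P * Real.exp (4 * ℓ + κ * ℓ + ψ * ℓ))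
            ≤ Real.exp (κ * ℓ) * (P * Real.exp (4 * ℓ + κ * ℓ + ψ * ℓ)) :=
              mul_le_mul_of_nonneg_right hnexp (by positivity)
          _ = P * Real.exp (κ * ℓ + (4 * ℓ + κ * ℓ + ψ * ℓ)) := by
              rw [Real.exp_add (κ * ℓ)]; ring
          _ ≤ _ := by
              refine mul_le_mul_of_nonneg_left (Real.exp_le_exp.2 ?_) hP.le
              have : (R - ψ) * ℓ ≥ 8 * κ * ℓ := mul_le_mul_of_nonneg_right hκ1 hℓ0.le
              nlinarith
    have h2 : Real.exp (ℓ * (4 + R) - 6 * κ * ℓ) ≤ Real.exp (ℓ * (4 + R) - 3 * κ * ℓ) :=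
      Real.exp_le_exp.2 (by nlinarith)
    have h3 : Real.exp (ℓ * (4 + R) - κ * ℓ) ≤ 2 * Real.exp (ℓ * (4 + R) - 3 * κ * ℓ) := by
      have h4 : P * Real.exp (ℓ * (4 + R) - κ * ℓ) ≤
          P * (2 * Real.exp (ℓ * (4 + R) - 3 * κ * ℓ)) := by
        nlinarith
      exact le_of_mul_le_mul_left h4 hP
    have h4 : Real.exp (ℓ * (4 + R) - κ * ℓ) =
        Real.exp (2 * (κ * ℓ)) * Real.exp (ℓ * (4 + R) - 3 * κ * ℓ) := by
      rw [← Real.exp_add]
      congr 1
      ring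
    rw [h4] at h3
    have h5 : Real.exp (2 * (κ * ℓ)) ≤ 2 := le_of_mul_le_mul_right h3 (Real.exp_pos _)
    have h6 := Real.add_one_le_exp (2 * (κ * ℓ))
    linarith
  -- the Harnack chain
  have hin : ∀ s ∈ Icc (0 : ℝ) t, ∀ w ∈ ball (0 : ℂ) 1,
      3 ≤ (a + (s : ℝ) + w).re ∧ ‖a + (s : ℝ) + w‖ ≤ A + 10 := by
    intro s hs w hw
    rw [mem_ball_zero_iff] at hw
    have h1 := Complex.abs_re_le_norm w
    have h2 := neg_abs_le w.re
    refine ⟨?_, ?_⟩
    · rw [Complex.add_re, Complex.add_re, hare, Complex.ofReal_re]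
      linarith [hs.1]
    · refine (norm_add_le _ _).trans ?_
      have h3 := norm_add_le a ((s : ℝ) : ℂ)
      rw [Complex.norm_real, Real.norm_eq_abs, abs_of_nonneg hs.1] at h3
      linarith [hs.2, ht.2]
  have hch := chain hg (Q := P * ℓ ^ n) (ℓ := ℓ) (κ := κ) (t := t) (by positivity) hℓ0 hκ0 a hm
    ht.1 (ht.2.trans hmR) (fun s hs w hw => hne _ (hin s hs w hw).1)
    (fun s hs w hw => hgup _ (hin s hs w hw).1 (hin s hs w hw).2) hbig m le_rfl
  have hm0 : (m : ℝ) ≠ 0 := by exact_mod_cast hm.ne'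
  rw [div_self hm0, sub_self, mul_zero, Complex.ofReal_zero, add_zero, hare] at hch
  refine le_trans (mul_le_mul_of_nonneg_left (Real.exp_le_exp.2 ?_) (by positivity)) hch
  have : (6 * κ * 3 ^ m - 3 * κ) * ℓ ≤ η * ℓ := mul_le_mul_of_nonneg_right (by linarith) hℓ0.le
  linarith

end Pool.Agent.TH494.LD
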