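import Pool.Agent.TH839.LD.Stm
import Pool.Agent.H296R2.LE.Basic

/-! Lemmas for LOW: factorials, Taylor bound with exponential weight, Harnack chain. -/

set_option autoImplicit false

open Complex Filter Topology Set Metric

namespace Pool.Agent.TH494.LD

theorem fact_bd (n : ℕ) (hn : 1 ≤ n) :
    (n.factorial : ℝ) * Real.exp n ≤ (n : ℝ) ^ n * (Real.exp 1 * n) := by
  induction n, hn using Nat.le_induction with
  | base => simp
  | succ n hn ih =>
    have hn0 : (0 : ℝ) < n := by exact_mod_cast hn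
    have h1 : Real.exp 1 * (n : ℝ) ^ (n + 1) ≤ ((n : ℝ) + 1) ^ (n + 1) := by
      have h2 : (n : ℝ) / (n + 1) ≤ Real.exp (-(1 / ((n : ℝ) + 1))) := by
        have := Real.add_one_le_exp (-(1 / ((n : ℝ) + 1)))
        have e : -(1 / ((n : ℝ) + 1)) + 1 = (n : ℝ) / (n + 1) := by field_simp; ring
        rwa [e] at this
      have h3 : ((n : ℝ) / (n + 1)) ^ (n + 1) ≤ Real.exp (-1) := by
        calc ((n : ℝ) / (n + 1)) ^ (n + 1) ≤ (Real.exp (-(1 / ((n : ℝ) + 1)))) ^ (n + 1) :=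
              pow_le_pow_left₀ (by positivity) h2 _
          _ = Real.exp (-1) := by
            rw [← Real.exp_nat_mul]
            congr 1
            push_cast
            field_simp
      rw [div_pow, div_le_iff₀ (by positivity)] at h3
      calc Real.exp 1 * (n : ℝ) ^ (n + 1) ≤ Real.exp 1 * (Real.exp (-1) * ((n : ℝ) + 1) ^ (n + 1)) :=
            mul_le_mul_of_nonneg_left h3 (Real.exp_pos _).le
        _ = ((n : ℝ) + 1) ^ (n + 1) := by
          rw [← mul_assoc, ← Real.exp_add]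
          norm_num
    rw [Nat.factorial_succ]
    push_cast
    rw [Real.exp_add]
    calc ((n : ℝ) + 1) * (n.factorial : ℝ) * (Real.exp n * Real.exp 1)
        = ((n : ℝ) + 1) * Real.exp 1 * ((n.factorial : ℝ) * Real.exp n) := by ring
      _ ≤ ((n : ℝ) + 1) * Real.exp 1 * ((n : ℝ) ^ n * (Real.exp 1 * n)) :=
          mul_le_mul_of_nonneg_left ih (by positivity)
      _ = ((n : ℝ) + 1) * Real.exp 1 * (Real.exp 1 * (n : ℝ) ^ (n + 1)) := by ring
      _ ≤ ((n : ℝ) + 1) * Real.exp 1 * ((n : ℝ) + 1) ^ (n + 1) :=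
          mul_le_mul_of_nonneg_left h1 (by positivity)
      _ = ((n : ℝ) + 1) ^ (n + 1) * (Real.exp 1 * ((n : ℝ) + 1)) := by ring

/-- Taylor bound with an exponential weight -/
theorem taylor_bd (n : ℕ) : ∀ (f : ℂ → ℂ), Differentiable ℂ f → ∀ (a : ℂ) (c ℓ R : ℝ), 0 ≤ c →
    0 < ℓ → (∀ t ∈ Icc 0 R, ‖iteratedDeriv n f (a + (t : ℝ))‖ ≤ c * ℓ ^ n * Real.exp (ℓ * t)) →
    ∀ t ∈ Icc 0 R, ‖f (a + (t : ℝ))‖ ≤ c * Real.exp (ℓ * t) +
      ∑ k ∈ Finset.range n, ‖iteratedDeriv k f a‖ * t ^ k / (k.factorial : ℝ) := by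
  induction n with
  | zero =>
    intro f _ a c ℓ R _ _ h t ht
    have := h t ht
    simpa using this
  | succ n ih =>
    intro f hf a c ℓ R hc hℓ h
    have hf' : Differentiable ℂ (deriv f) := by
      intro z
      exact (hf.differentiableOn (s := univ)).deriv isOpen_univ z (mem_univ z) |>.differentiableAt
        univ_mem
    have h1 := ih (deriv f) hf' a (c * ℓ) ℓ R (by positivity) hℓ (by
      intro t ht
      have := h t ht
      rw [iteratedDeriv_succ'] at this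
      rw [show c * ℓ * ℓ ^ n = c * ℓ ^ (n + 1) by ring]
      exact this)
    have hder : ∀ x : ℝ, HasDerivAt (fun t : ℝ => f (a + (t : ℝ))) (deriv f (a + (x : ℝ))) x := by
      intro x
      have h2 : HasDerivAt f (deriv f (a + (x : ℝ))) (a + (x : ℝ)) := (hf _).hasDerivAt
      have h3 : HasDerivAt (fun t : ℝ => a + (t : ℂ)) 1 x := by
        have := (Complex.ofRealCLM.hasDerivAt (x := x)).const_add a
        simpa using this
      have h4 := h2.scomp x h3
      rw [one_smul] at h4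
      exact h4
    have hB : ∀ x : ℝ, HasDerivAt (fun t : ℝ => c * Real.exp (ℓ * t) + (‖f a‖ +
        ∑ k ∈ Finset.range n, ‖iteratedDeriv k (deriv f) a‖ * t ^ (k + 1) /
          ((k + 1).factorial : ℝ)))
        (c * ℓ * Real.exp (ℓ * x) + ∑ k ∈ Finset.range n, ‖iteratedDeriv k (deriv f) a‖ * x ^ k /
          (k.factorial : ℝ)) x := by
      intro x
      have k1 : HasDerivAt (fun t : ℝ => c * Real.exp (ℓ * t)) (c * ℓ * Real.exp (ℓ * x)) x := by
        have := (((hasDerivAt_id x).const_mul ℓ).exp).const_mul c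
        refine this.congr_deriv ?_
        simp only [id_eq, mul_one]
        ring
      have k2 : HasDerivAt (fun t : ℝ => ∑ k ∈ Finset.range n, ‖iteratedDeriv k (deriv f) a‖ *
          t ^ (k + 1) / ((k + 1).factorial : ℝ)) (∑ k ∈ Finset.range n,
          ‖iteratedDeriv k (deriv f) a‖ * x ^ k / (k.factorial : ℝ)) x := by
        refine HasDerivAt.fun_sum fun k _ => ?_
        have k3 := ((hasDerivAt_pow (k + 1) x).const_mul ‖iteratedDeriv k (deriv f) a‖).div_const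
          ((k + 1).factorial : ℝ)
        refine k3.congr_deriv ?_
        rw [Nat.factorial_succ]
        push_cast
        have : (k.factorial : ℝ) ≠ 0 := by exact_mod_cast k.factorial_ne_zero
        have : (k : ℝ) + 1 ≠ 0 := by positivity
        field_simp
      exact k1.add (k2.const_add _)
    have key := image_norm_le_of_norm_deriv_right_le_deriv_boundary (a := 0) (b := R)
      (f := fun t : ℝ => f (a + (t : ℝ))) (f' := fun t : ℝ => deriv f (a + (t : ℝ)))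
      (fun x _ => (hder x).continuousAt.continuousWithinAt)
      (fun x _ => (hder x).hasDerivWithinAt)
      (B := fun t : ℝ => c * Real.exp (ℓ * t) + (‖f a‖ +
        ∑ k ∈ Finset.range n, ‖iteratedDeriv k (deriv f) a‖ * t ^ (k + 1) /
          ((k + 1).factorial : ℝ)))
      (B' := fun x : ℝ => c * ℓ * Real.exp (ℓ * x) +
        ∑ k ∈ Finset.range n, ‖iteratedDeriv k (deriv f) a‖ * x ^ k / (k.factorial : ℝ))
      (by
        simp only [ofReal_zero, add_zero, mul_zero, Real.exp_zero, mul_one]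
        have : ∑ k ∈ Finset.range n, ‖iteratedDeriv k (deriv f) a‖ * (0 : ℝ) ^ (k + 1) /
          ((k + 1).factorial : ℝ) = 0 := Finset.sum_eq_zero fun k _ => by simp
        rw [this]
        linarith)
      hB (fun x hx => h1 x ⟨hx.1, hx.2.le⟩)
    intro t ht
    have h5 := key ht
    rw [Finset.sum_range_succ']
    simp only [iteratedDeriv_zero, pow_zero, Nat.factorial_zero, Nat.cast_one, div_one, mul_one]
    simp only [iteratedDeriv_succ']
    linarith

/-- one step of the Harnack chain -/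
theorem step {g : ℂ → ℂ} (hg : Differentiable ℂ g) {Q ℓ κ U : ℝ} (hQ : 0 < Q) (hℓ : 0 < ℓ)
    (hκ : 0 < κ) (hU : 0 ≤ U) {z : ℂ} (hne : ∀ w ∈ ball (0 : ℂ) 1, g (z + w) ≠ 0)
    (hup : ∀ w ∈ ball (0 : ℂ) 1, ‖g (z + w)‖ ≤ Q * Real.exp (ℓ * (z + w).re + 2 * κ * ℓ))
    (hlo : Q * Real.exp (ℓ * z.re - U * ℓ) ≤ ‖g z‖) {w : ℂ} (hw : ‖w‖ ≤ 1 / 2) :
    Q * Real.exp (ℓ * (z + w).re - 3 * (U + 2 * κ) * ℓ) ≤ ‖g (z + w)‖ := by
  have hF : Differentiable ℂ (fun w : ℂ => g (z + w) * cexp (-(ℓ * w))) :=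
    (hg.comp (by fun_prop)).mul (by fun_prop)
  obtain ⟨h, h0, hd, he⟩ := Pool.Agent.H296R2.LE.exists_log (F := fun w : ℂ => g (z + w) *
    cexp (-(ℓ * w))) (c := 0) (R := 1) one_pos hF.differentiableOn
    (fun w hw => mul_ne_zero (hne w hw) (Complex.exp_ne_zero _))
  have hnF : ∀ w : ℂ, ‖g (z + w) * cexp (-(ℓ * w))‖ = ‖g (z + w)‖ * Real.exp (-(ℓ * w.re)) := by
    intro w
    rw [norm_mul, Complex.norm_exp, neg_re, Complex.re_ofReal_mul]
  have hg0 : 0 < ‖g z‖ := lt_of_lt_of_le (by positivity) hlo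
  have heq : ∀ w ∈ ball (0 : ℂ) 1, ‖g (z + w)‖ * Real.exp (-(ℓ * w.re)) =
      ‖g z‖ * Real.exp (h w).re := by
    intro w hw
    have h1 : ‖g (z + w) * cexp (-(ℓ * w))‖ = ‖g (z + 0) * cexp (-(ℓ * 0)) * cexp (h w)‖ :=
      congrArg norm (he w hw)
    rw [hnF, norm_mul, hnF, Complex.norm_exp] at h1
    simpa using h1
  have hM : 0 < (U + 2 * κ) * ℓ := by positivity
  have hre : MapsTo h (ball (0 : ℂ) 1) {z | z.re ≤ (U + 2 * κ) * ℓ} := by
    intro w hw
    have h1 := heq w hw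
    have h2 : Real.exp (h w).re * (Q * Real.exp (ℓ * z.re - U * ℓ)) ≤
        Q * Real.exp (ℓ * (z + w).re + 2 * κ * ℓ) * Real.exp (-(ℓ * w.re)) := by
      calc Real.exp (h w).re * (Q * Real.exp (ℓ * z.re - U * ℓ)) ≤ Real.exp (h w).re * ‖g z‖ :=
            mul_le_mul_of_nonneg_left hlo (Real.exp_pos _).le
        _ = ‖g (z + w)‖ * Real.exp (-(ℓ * w.re)) := by rw [h1]; ring
        _ ≤ _ := mul_le_mul_of_nonneg_right (hup w hw) (Real.exp_pos _).le
    have h3 : Q * Real.exp ((h w).re + (ℓ * z.re - U * ℓ)) ≤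
        Q * Real.exp ((ℓ * (z + w).re + 2 * κ * ℓ) + -(ℓ * w.re)) := by
      rw [Real.exp_add, Real.exp_add]
      calc Q * (Real.exp (h w).re * Real.exp (ℓ * z.re - U * ℓ))
          = Real.exp (h w).re * (Q * Real.exp (ℓ * z.re - U * ℓ)) := by ring
        _ ≤ _ := h2
        _ = _ := by ring
    have h4 := Real.exp_le_exp.1 (le_of_mul_le_mul_left h3 hQ)
    rw [Complex.add_re] at h4
    show (h w).re ≤ _
    linarith
  have hwb : w ∈ ball (0 : ℂ) 1 := by
    rw [mem_ball_zero_iff]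
    linarith
  have hBC := borelCaratheodory_zero hM
    (fun w hw => (hd w hw).differentiableAt.differentiableWithinAt) hre one_pos hwb h0
  have hhw : ‖h w‖ ≤ 2 * ((U + 2 * κ) * ℓ) := by
    refine hBC.trans ?_
    rw [div_le_iff₀ (by linarith)]
    nlinarith [norm_nonneg w]
  have hlow : -(2 * ((U + 2 * κ) * ℓ)) ≤ (h w).re := by
    have := Complex.abs_re_le_norm (h w)
    have h6 := neg_abs_le (h w).re
    linarith
  have h7 := heq w hwb
  have h8 : ‖g (z + w)‖ = ‖g z‖ * Real.exp (h w).re * Real.exp (ℓ * w.re) := by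
    rw [← h7, mul_assoc, ← Real.exp_add]
    simp
  rw [h8]
  calc Q * Real.exp (ℓ * (z + w).re - 3 * (U + 2 * κ) * ℓ)
      ≤ Q * Real.exp ((ℓ * z.re - U * ℓ) + (-(2 * ((U + 2 * κ) * ℓ))) + ℓ * w.re) := by
        refine mul_le_mul_of_nonneg_left (Real.exp_le_exp.2 ?_) hQ.le
        rw [Complex.add_re]
        nlinarith
    _ = (Q * Real.exp (ℓ * z.re - U * ℓ)) * Real.exp (-(2 * ((U + 2 * κ) * ℓ))) *
        Real.exp (ℓ * w.re) := by
        rw [Real.exp_add, Real.exp_add]; ring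
    _ ≤ ‖g z‖ * Real.exp (h w).re * Real.exp (ℓ * w.re) := by
        refine mul_le_mul_of_nonneg_right ?_ (Real.exp_pos _).le
        exact mul_le_mul hlo (Real.exp_le_exp.2 hlow) (Real.exp_pos _).le hg0.le

/-- the Harnack chain -/
theorem chain {g : ℂ → ℂ} (hg : Differentiable ℂ g) {Q ℓ κ t : ℝ} (hQ : 0 < Q) (hℓ : 0 < ℓ)
    (hκ : 0 < κ) (a : ℂ) {m : ℕ} (hm : 0 < m) (ht : 0 ≤ t) (htm : t ≤ m / 2)
    (hne : ∀ s ∈ Icc 0 t, ∀ w ∈ ball (0 : ℂ) 1, g (a + (s : ℝ) + w) ≠ 0)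
    (hup : ∀ s ∈ Icc 0 t, ∀ w ∈ ball (0 : ℂ) 1,
      ‖g (a + (s : ℝ) + w)‖ ≤ Q * Real.exp (ℓ * (a + (s : ℝ) + w).re + 2 * κ * ℓ))
    (hlo : Q * Real.exp (ℓ * (a + (t : ℝ)).re - 3 * κ * ℓ) ≤ ‖g (a + (t : ℝ))‖) :
    ∀ k : ℕ, k ≤ m → Q * Real.exp (ℓ * (a + ((t * (1 - k / m) : ℝ) : ℂ)).re -
      (6 * κ * 3 ^ k - 3 * κ) * ℓ) ≤ ‖g (a + ((t * (1 - k / m) : ℝ) : ℂ))‖ := by
  have hm0 : (0 : ℝ) < m := by exact_mod_cast hm
  intro k
  induction k with
  | zero =>
    intro _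
    have e : (6 * κ * 3 ^ 0 - 3 * κ) * ℓ = 3 * κ * ℓ := by ring
    rw [e]
    simpa using hlo
  | succ k ih =>
    intro hk
    have hk' : (k : ℝ) ≤ m := by exact_mod_cast (Nat.le_of_succ_le hk)
    have h1 := ih (Nat.le_of_succ_le hk)
    have hs : t * (1 - (k : ℝ) / m) ∈ Icc 0 t := by
      have h2 : (k : ℝ) / m ≤ 1 := (div_le_one hm0).2 hk'
      have h3 : 0 ≤ (k : ℝ) / m := by positivity
      constructor
      · exact mul_nonneg ht (by linarith)
      · nlinarith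
    have hw : ‖((-(t / m) : ℝ) : ℂ)‖ ≤ 1 / 2 := by
      rw [Complex.norm_real, Real.norm_eq_abs, abs_neg, abs_of_nonneg (by positivity),
        div_le_iff₀ hm0]
      linarith
    have hU : 0 ≤ 6 * κ * 3 ^ k - 3 * κ := by
      have : (1 : ℝ) ≤ 3 ^ k := one_le_pow₀ (by norm_num)
      nlinarith
    have h2 := step hg hQ hℓ hκ hU (z := a + ((t * (1 - k / m) : ℝ) : ℂ)) (hne _ hs) (hup _ hs)
      h1 hw
    have e : a + ((t * (1 - (k : ℝ) / m) : ℝ) : ℂ) + ((-(t / m) : ℝ) : ℂ) =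
        a + ((t * (1 - ((k + 1 : ℕ) : ℝ) / m) : ℝ) : ℂ) := by
      rw [add_assoc, ← Complex.ofReal_add]
      congr 2
      push_cast
      field_simp
      ring
    rw [e] at h2
    have e2 : (6 * κ * 3 ^ (k + 1) - 3 * κ) * ℓ = 3 * ((6 * κ * 3 ^ k - 3 * κ) + 2 * κ) * ℓ := by
      ring
    rw [e2]
    exact h2

end Pool.Agent.TH494.LD
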